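import Pool.Agent.H806_Gap.Weak

set_option autoImplicit false

open MeasureTheory Filter Topology

/-- **Small linear forms in typical points of a singular `×p`, `×q` invariant measure.** Let
`p, q ≥ 2` be multiplicatively independent and let `μ` be a Borel probability measure on the circle,
invariant under `x ↦ p x` and `x ↦ q x` and singular to Lebesgue measure. For all `k`, `M`, all
`A > 0` and `ε > 0` and EVERY sufficiently small `r` there is a closed set `G` with `μ (Gᶜ) ≤ ε` such
that no integer combination `a₁ x₁ + ... + a_k x_k` of points of `G` with `|a₁| + ... + |a_k| ≤ M`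
has norm (distance to zero in the circle) between `r / (log log (1 / r)) ^ A` and `r`. -/
theorem Pool.Agent.Results.MP_96e181_an.LinearForms.result :
    ∀ p q : ℕ, 2 ≤ p → 2 ≤ q → Irrational (Real.log p / Real.log q) →
      ∀ μ : Measure UnitAddCircle, IsProbabilityMeasure μ →
      MeasurePreserving (fun x : UnitAddCircle => p • x) μ μ →
      MeasurePreserving (fun x : UnitAddCircle => q • x) μ μ → μ ⟂ₘ volume →
      ∀ (k M : ℕ) (A ε : ℝ), 0 < A → 0 < ε → ∃ r₀ : ℝ, 0 < r₀ ∧ ∀ r : ℝ, 0 < r → r < r₀ →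
        ∃ G : Set UnitAddCircle, IsClosed G ∧ μ.real Gᶜ ≤ ε ∧
          ∀ x : Fin k → UnitAddCircle, (∀ i, x i ∈ G) → ∀ a : Fin k → ℤ, ∑ i, |a i| ≤ M →
            ‖∑ i, a i • x i‖ ≤ r → ‖∑ i, a i • x i‖ < r / Real.log (Real.log (1 / r)) ^ A := by
  intro p q hp hq hirr μ hμ h2 h3 hs k M A ε hA hε
  obtain ⟨θ, hθ, hdio⟩ := Pool.Agent.H806.Gap.dio_log hp hq hirr
  obtain ⟨n, h1, h4, h5⟩ := Pool.Agent.H806.Gap.gauge_log hθ hA
  exact Pool.Agent.H806.Gap.lin_gauge_gen hp hq hirr
    (Real.tendsto_log_atTop.const_mul_atTop hθ) hdio n h1 h4 h5 μ h2 h3 hs k M hε
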