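import Pool.Agent.H806_Gap.Weak

set_option autoImplicit false

open MeasureTheory Filter Topology

/-- **The local mass formula for the `×p`, `×q` invariant measures.** Let `p, q ≥ 2` be
multiplicatively independent and let `μ` be any Borel probability measure on the circle which is
invariant under `x ↦ p x` and `x ↦ q x`; no entropy assumption, no ergodicity, atoms are allowed.
(1) For every `A > 0` the `μ`-mean of the ratio
`μ (B (x, r / (log log (1 / r)) ^ A)) / μ (B (x, r))` converges, as `r → 0`, to the mass of the
Lebesgue-singular part of `μ`.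
(2) This limit is `0` exactly when `μ` is Lebesgue measure.
(3) It is `1` for all jointly ergodic `μ` other than Lebesgue measure. -/
theorem Pool.Agent.Results.MP_96e181_an.LocalMass.result :
    ∀ p q : ℕ, 2 ≤ p → 2 ≤ q → Irrational (Real.log p / Real.log q) →
      ∀ μ : Measure UnitAddCircle, IsProbabilityMeasure μ →
      MeasurePreserving (fun x : UnitAddCircle => p • x) μ μ →
      MeasurePreserving (fun x : UnitAddCircle => q • x) μ μ →
        (∀ A : ℝ, 0 < A → Tendsto (fun r : ℝ => ∫ x,
            μ.real (Metric.closedBall x (r / Real.log (Real.log (1 / r)) ^ A)) /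
              μ.real (Metric.closedBall x r) ∂μ)
          (𝓝[>] 0) (𝓝 ((μ.singularPart volume).real Set.univ))) ∧
        ((μ.singularPart volume).real Set.univ = 0 ↔ μ = volume) ∧
        ((∀ E : Set UnitAddCircle, MeasurableSet E →
            (fun x : UnitAddCircle => p • x) ⁻¹' E = E →
            (fun x : UnitAddCircle => q • x) ⁻¹' E = E → μ E = 0 ∨ μ E = 1) → μ ≠ volume →
          (μ.singularPart volume).real Set.univ = 1) := by
  intro p q hp hq hirr μ hμ h2 h3
  refine ⟨fun A hA => ?_, ?_, fun herg hne => ?_⟩
  · obtain ⟨θ, hθ, hdio⟩ := Pool.Agent.H806.Gap.dio_log hp hq hirr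
    obtain ⟨n, h1, h4, h5⟩ := Pool.Agent.H806.Gap.gauge_log hθ hA
    exact Pool.Agent.H806.Gap.local_mass_gen hp hq hirr
      (Real.tendsto_log_atTop.const_mul_atTop hθ) hdio n h1 h4 h5 μ h2 h3
  · exact Pool.Agent.H806.Gap.sing_zero_gen hp hq μ h2 h3
  · exact Pool.Agent.H806.Gap.sing_one_gen hp hq μ h2 h3 herg hne
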